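import Pool.Agent.RS.StmtsT

set_option autoImplicit false

/-!
# Row NDC of squad RS
-/

namespace Pool.Agent.RS.H86

open MvPolynomial Pool.Agent.RS

lemma ndc_alg {K : Type} [Field K] (Q q a b c c' f u : K) (s M : ℕ) (hQ : Q ≠ 0) (hq : q ≠ 0)
    (hb : b ≠ 0) (hf : f ≠ 0) (hu : u ≠ 0)
    (e : u * f * q ^ M = b * (c * (f * q ^ M) + c' * u)) :
    a / (Q ^ s * b) = a * c / (Q ^ s * u) + a * c' * Q ^ M * q ^ s / ((Q * q) ^ (s + M) * f) := by
  have h1 : a * c' * Q ^ M * q ^ s / ((Q * q) ^ (s + M) * f) = a * c' / (Q ^ s * (f * q ^ M)) := by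
    rw [div_eq_div_iff (mul_ne_zero (pow_ne_zero _ (mul_ne_zero hQ hq)) hf)
      (mul_ne_zero (pow_ne_zero _ hQ) (mul_ne_zero hf (pow_ne_zero _ hq)))]
    rw [mul_pow, pow_add, pow_add]
    ring
  have h2 : a / (Q ^ s * b) = a / Q ^ s * (1 / b) := by
    rw [div_mul_div_comm, mul_one]
  have h3 : (1 : K) / b = c / u + c' / (f * q ^ M) := by
    rw [div_add_div _ _ hu (mul_ne_zero hf (pow_ne_zero _ hq)),
      div_eq_div_iff hb (mul_ne_zero hu (mul_ne_zero hf (pow_ne_zero _ hq)))]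
    linear_combination e
  rw [h1, h2, h3, mul_add, div_mul_div_comm, div_mul_div_comm]

theorem ndc (pfb : PfbStmt) (nmd : NmdStmt) (ntm : NtmStmt) : NdcStmt := by
  intro B K _ _ _ _ hinj P x q r hT hq b hb
  have hP : ∀ l ≤ r, (∀ m < l, q m ∈ P m ∧ q m ≠ 0 ∧ P (m + 1) ≤ P m) := fun l hl m hm =>
    ⟨(hq m (by omega)).1, (hq m (by omega)).2, (hT.2 m (by omega)).1⟩
  have main : ∀ l ≤ r, ∃ (w : K) (s : ℕ) (a f : B), InN P q l w ∧ f ∈ P l ∧ f ≠ 0 ∧
      (1 : K) / algebraMap B K b =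
        w + algebraMap B K a / algebraMap B K ((∏ i ∈ Finset.range l, q i) ^ s * f) := by
    intro l
    induction l with
    | zero =>
      intro _
      refine ⟨0, 0, 1, b, (nmd B K hinj P q 0 (hP 0 (by omega))).1, hT.1 b, hb, ?_⟩
      simp
    | succ l ih =>
      intro hl
      obtain ⟨w, s, a, b', hw, hb', hb0, e⟩ := ih (by omega)
      obtain ⟨hle, hx, hgen, hi⟩ := hT.2 l (by omega)
      obtain ⟨hq1, hq0⟩ := hq l (by omega)
      obtain ⟨M, u, c, c', f, hu, hu0, hf, hf0, hc, hc', e'⟩ :=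
        pfb B (P l) (P (l + 1)) (x l) hle hx hgen hi (q l) hq1 hq0 b' hb' hb0
      obtain ⟨n0, na, nm, ninc⟩ := nmd B K hinj P q (l + 1) (hP (l + 1) hl)
      refine ⟨w + algebraMap B K (a * c) / algebraMap B K ((∏ i ∈ Finset.range l, q i) ^ s * u),
        s + M, a * c' * (∏ i ∈ Finset.range l, q i) ^ M * q l ^ s, f,
        na _ _ (ninc l w (by omega) hw) (ntm B K P q (l + 1) l s (a * c) u (by omega) hu), hf, hf0,
        ?_⟩
      rw [e, Finset.prod_range_succ, add_assoc]
      have hQ : (∏ i ∈ Finset.range l, q i) ≠ 0 := Finset.prod_ne_zero_iff.2 fun i hi =>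
        (hq i (by have := Finset.mem_range.1 hi; omega)).2
      have hne : ∀ z : B, z ≠ 0 → algebraMap B K z ≠ 0 := fun z hz h0 =>
        hz (hinj (h0.trans (map_zero _).symm))
      have key := ndc_alg (algebraMap B K (∏ i ∈ Finset.range l, q i)) (algebraMap B K (q l))
        (algebraMap B K a) (algebraMap B K b') (algebraMap B K c) (algebraMap B K c')
        (algebraMap B K f) (algebraMap B K u) s M (hne _ hQ) (hne _ hq0) (hne _ hb0) (hne _ hf0)
        (hne _ hu0) (by
          have := congrArg (algebraMap B K) e'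
          simpa only [map_mul, map_pow, map_add] using this)
      simp only [map_mul, map_pow] at key ⊢
      rw [key]
  exact main r le_rfl

end Pool.Agent.RS.H86
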