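import Pool.Agent.RS.StmtsT

set_option autoImplicit false
set_option synthInstance.maxHeartbeats 400000

/-!
# Row GIN of squad RS
-/

namespace Pool.Agent.RS.H86

open MvPolynomial Pool.Agent.RS

lemma prod_gm {E : Type} [Field E] (q : ℕ → BG E) (G : ℕ → ℕ → MvPolynomial ℕ E)
    (hq : ∀ l, (q l : AS E) = gm E (fun n => G n l)) (l : ℕ) :
    ((∏ i ∈ Finset.range l, q i : BG E) : AS E) =
      gm E (fun n => ∏ i ∈ Finset.range l, G n i) := by
  induction l with
  | zero =>
    simp only [Finset.range_zero, Finset.prod_empty]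
    rfl
  | succ l ih =>
    simp only [Finset.prod_range_succ]
    rw [MulMemClass.coe_mul, ih, hq]
    rfl

lemma pow_gm {E : Type} [Field E] (f : BG E) (F : ℕ → MvPolynomial ℕ E)
    (hf : (f : AS E) = gm E F) (s : ℕ) :
    ((f ^ s : BG E) : AS E) = gm E (fun n => F n ^ s) := by
  induction s with
  | zero =>
    simp only [pow_zero]
    rfl
  | succ s ih =>
    simp only [pow_succ]
    rw [MulMemClass.coe_mul, ih, hf]
    rfl

lemma mul_gm {E : Type} [Field E] (f g : BG E) (F G : ℕ → MvPolynomial ℕ E)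
    (hf : (f : AS E) = gm E F) (hg : (g : AS E) = gm E G) :
    ((f * g : BG E) : AS E) = gm E (fun n => F n * G n) := by
  rw [MulMemClass.coe_mul, hf, hg]
  rfl

lemma sum_germ {L : Type} [Field L] (f : ℕ → ℕ → L) (r : ℕ) :
    ((fun n => ∑ l ∈ Finset.range r, f l n : ℕ → L) : Filter.Germ (uf : Filter ℕ) L) =
      ∑ l ∈ Finset.range r, ((f l : ℕ → L) : Filter.Germ (uf : Filter ℕ) L) := by
  induction r with
  | zero => simp only [Finset.range_zero, Finset.sum_empty]; rfl
  | succ r ih =>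
    simp only [Finset.sum_range_succ]
    rw [← ih]
    rfl

theorem gin (ggd : GgdStmt) (gem : GemStmt) : GinStmt := by
  intro E _ _ _ j r G q Fa Fb a b hq ha hb h
  obtain ⟨s, a', u', hgood, heq⟩ := h
  obtain ⟨θ, hθ, hθF⟩ := gem E
  have ha' : ∀ l, ∃ F : ℕ → MvPolynomial ℕ E, (a' l : AS E) = gm E F := fun l => by
    obtain ⟨F, D, _, h⟩ := (a' l).2
    exact ⟨F, h⟩
  have hu' : ∀ l, ∃ F : ℕ → MvPolynomial ℕ E, (u' l : AS E) = gm E F := fun l => by
    obtain ⟨F, D, _, h⟩ := (u' l).2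
    exact ⟨F, h⟩
  choose A hA using ha'
  choose U hU using hu'
  let Θ : FractionRing (BG E) →+* Filter.Germ (uf : Filter ℕ) (FF E) :=
    IsFractionRing.lift (A := BG E) (g := θ) hθ
  have hΘ : ∀ z : BG E, Θ (algebraMap (BG E) (FractionRing (BG E)) z) = θ z := fun z =>
    IsFractionRing.lift_algebraMap hθ z
  have key := congrArg Θ heq
  rw [map_div₀, hΘ, hΘ, map_sum, hθF Fa a ha, hθF Fb b hb] at key
  have hterm : ∀ l, Θ (algebraMap (BG E) (FractionRing (BG E)) (a' l) /
      algebraMap (BG E) (FractionRing (BG E)) ((∏ i ∈ Finset.range l, q i) ^ s l * u' l)) =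
      ((fun n => io E (A l n) / io E ((∏ i ∈ Finset.range l, G n i) ^ s l * U l n) : ℕ → FF E) :
        Filter.Germ (uf : Filter ℕ) (FF E)) := by
    intro l
    rw [map_div₀, hΘ, hΘ, hθF (A l) (a' l) (hA l),
      hθF _ _ (mul_gm _ _ _ _ (pow_gm _ _ (prod_gm q G hq l) (s l)) (hU l))]
    rfl
  have key2 : ((fun n => io E (Fa n) / io E (Fb n) : ℕ → FF E) :
      Filter.Germ (uf : Filter ℕ) (FF E)) =
      ((fun n => ∑ l ∈ Finset.range r,
        io E (A l n) / io E ((∏ i ∈ Finset.range l, G n i) ^ s l * U l n) : ℕ → FF E) :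
        Filter.Germ (uf : Filter ℕ) (FF E)) := by
    rw [sum_germ (fun l n => io E (A l n) / io E ((∏ i ∈ Finset.range l, G n i) ^ s l * U l n))]
    rw [← Finset.sum_congr rfl fun l _ => hterm l]
    exact key
  have e1 := Filter.Germ.coe_eq.1 key2
  have e2 : ∀ᶠ n in (uf : Filter ℕ), ∀ l ∈ Finset.range r,
      Good (Pj E (j n) l) (Pj E (j n) (l + 1)) (G n l) (U l n) := by
    rw [Filter.eventually_all_finset]
    intro l hl
    exact ggd E j l (U l) (fun n => G n l) (u' l) (q l) (hU l) (hq l)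
      (hgood l (Finset.mem_range.1 hl))
  filter_upwards [e1, e2] with n h1 h2
  exact ⟨s, fun l => A l n, fun l => U l n, fun l hl => h2 l (Finset.mem_range.2 hl), h1⟩

end Pool.Agent.RS.H86
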